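import Pool.Agent.Y6.M.Stm

/-!
 EM-FRAME: helical vectors exist
-/

set_option autoImplicit false

open scoped ComplexConjugate

namespace Pool.Agent.Y812.EM.Frame

open Pool.Agent.Y6.M

theorem dt_eq (a b : C3) : dt a b = a 0 * b 0 + a 1 * b 1 + a 2 * b 2 := by
  unfold dt
  rw [Fin.sum_univ_three]

theorem nsq_eq (k : Z3) : nsq k = k 0 ^ 2 + k 1 ^ 2 + k 2 ^ 2 := by
  unfold nsq
  rw [Fin.sum_univ_three]

theorem nsq_pos {k : Z3} (hk : k ≠ 0) : 0 < nsq k := by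
  rw [nsq_eq]
  by_contra h
  apply hk
  have h0 := sq_nonneg (k 0)
  have h1 := sq_nonneg (k 1)
  have h2 := sq_nonneg (k 2)
  have e0 : k 0 = 0 := pow_eq_zero_iff (two_ne_zero) |>.1 (by linarith)
  have e1 : k 1 = 0 := pow_eq_zero_iff (two_ne_zero) |>.1 (by linarith)
  have e2 : k 2 = 0 := pow_eq_zero_iff (two_ne_zero) |>.1 (by linarith)
  funext j
  fin_cases j
  · exact e0
  · exact e1
  · exact e2

theorem len_pos {k : Z3} (hk : k ≠ 0) : 0 < len k := by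
  unfold len
  exact Real.sqrt_pos.2 (by exact_mod_cast nsq_pos hk)

theorem len_sq (k : Z3) : len k ^ 2 = (k 0 : ℝ) ^ 2 + (k 1 : ℝ) ^ 2 + (k 2 : ℝ) ^ 2 := by
  unfold len
  rw [Real.sq_sqrt]
  · rw [nsq_eq]
    push_cast
    ring
  · rw [nsq_eq]
    positivity

theorem len_neg (k : Z3) : len (-k) = len k := by
  unfold len
  congr 2
  rw [nsq_eq, nsq_eq]
  simp

/-- the direction of `k` -/
noncomputable def nv (k : Z3) : Fin 3 → ℝ := fun j => (k j : ℝ) / len k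

/-- a unit vector orthogonal to `k` -/
noncomputable def av (k : Z3) : Fin 3 → ℝ :=
  if k 0 = 0 ∧ k 1 = 0 then ![(k 2 : ℝ) / |(k 2 : ℝ)|, 0, 0]
  else ![-(k 1 : ℝ) / √((k 0 : ℝ) ^ 2 + (k 1 : ℝ) ^ 2),
    (k 0 : ℝ) / √((k 0 : ℝ) ^ 2 + (k 1 : ℝ) ^ 2), 0]

/-- the third vector -/
noncomputable def bv (k : Z3) : Fin 3 → ℝ :=
  ![nv k 1 * av k 2 - nv k 2 * av k 1, nv k 2 * av k 0 - nv k 0 * av k 2,
    nv k 0 * av k 1 - nv k 1 * av k 0]

theorem nv_unit {k : Z3} (hk : k ≠ 0) : nv k 0 ^ 2 + nv k 1 ^ 2 + nv k 2 ^ 2 = 1 := by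
  have h1 := len_pos hk
  have h2 := len_sq k
  unfold nv
  field_simp
  linarith

theorem av_unit {k : Z3} (hk : k ≠ 0) : av k 0 ^ 2 + av k 1 ^ 2 + av k 2 ^ 2 = 1 := by
  unfold av
  split_ifs with h
  · have h2 : (k 2 : ℝ) ≠ 0 := by
      intro h0
      apply hk
      funext j
      fin_cases j
      · exact h.1
      · exact h.2
      · exact_mod_cast h0
    have h3 : |(k 2 : ℝ)| ≠ 0 := abs_ne_zero.2 h2
    simp only [Matrix.cons_val_zero, Matrix.cons_val_one, Matrix.cons_val]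
    rw [div_pow, sq_abs, div_self (pow_ne_zero 2 h2)]
    norm_num
  · have h2 : 0 < (k 0 : ℝ) ^ 2 + (k 1 : ℝ) ^ 2 := by
      have h0 := sq_nonneg (k 0 : ℝ)
      have h1 := sq_nonneg (k 1 : ℝ)
      by_contra hc
      apply h
      constructor
      · have : (k 0 : ℝ) = 0 := pow_eq_zero_iff (two_ne_zero) |>.1 (by linarith)
        exact_mod_cast this
      · have : (k 1 : ℝ) = 0 := pow_eq_zero_iff (two_ne_zero) |>.1 (by linarith)
        exact_mod_cast this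
    simp only [Matrix.cons_val_zero, Matrix.cons_val_one, Matrix.cons_val]
    rw [div_pow, div_pow, Real.sq_sqrt h2.le]
    field_simp
    ring

theorem nv_av (k : Z3) : nv k 0 * av k 0 + nv k 1 * av k 1 + nv k 2 * av k 2 = 0 := by
  unfold av nv
  split_ifs with h
  · simp only [Matrix.cons_val_zero, Matrix.cons_val_one, Matrix.cons_val]
    rw [h.1]
    simp
  · simp only [Matrix.cons_val_zero, Matrix.cons_val_one, Matrix.cons_val]
    ring

theorem nv_neg (k : Z3) (j : Fin 3) : nv (-k) j = -nv k j := by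
  unfold nv
  rw [len_neg]
  push_cast [Pi.neg_apply]
  ring

theorem av_neg (k : Z3) (j : Fin 3) : av (-k) j = -av k j := by
  unfold av
  simp only [Pi.neg_apply, neg_eq_zero]
  split_ifs with h
  · fin_cases j
    · simp only [Int.cast_neg, abs_neg]
      change (-(k 2 : ℝ)) / |(k 2 : ℝ)| = -((k 2 : ℝ) / |(k 2 : ℝ)|)
      ring
    · change (0 : ℝ) = -0
      norm_num
    · change (0 : ℝ) = -0
      norm_num
  · fin_cases j
    · simp only [Int.cast_neg, neg_sq]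
      change -(-(k 1 : ℝ)) / _ = -(-(k 1 : ℝ) / _)
      ring
    · simp only [Int.cast_neg, neg_sq]
      change (-(k 0 : ℝ)) / _ = -((k 0 : ℝ) / _)
      ring
    · change (0 : ℝ) = -0
      norm_num

theorem bv_neg (k : Z3) (j : Fin 3) : bv (-k) j = bv k j := by
  unfold bv
  simp only [nv_neg, av_neg]
  fin_cases j
  · change -nv k 1 * -av k 2 - -nv k 2 * -av k 1 = nv k 1 * av k 2 - nv k 2 * av k 1
    ring
  · change -nv k 2 * -av k 0 - -nv k 0 * -av k 2 = nv k 2 * av k 0 - nv k 0 * av k 2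
    ring
  · change -nv k 0 * -av k 1 - -nv k 1 * -av k 0 = nv k 0 * av k 1 - nv k 1 * av k 0
    ring

theorem bv0 (k : Z3) : bv k 0 = nv k 1 * av k 2 - nv k 2 * av k 1 := rfl
theorem bv1 (k : Z3) : bv k 1 = nv k 2 * av k 0 - nv k 0 * av k 2 := rfl
theorem bv2 (k : Z3) : bv k 2 = nv k 0 * av k 1 - nv k 1 * av k 0 := rfl

/-- the helical vectors -/
noncomputable def hv (i : Md) : C3 := fun j =>
  (Complex.I * (av i.1.1 j : ℂ) - (hs i.2 : ℂ) * (bv i.1.1 j : ℂ)) / ((√2 : ℝ) : ℂ)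

theorem hs_sq (s : Bool) : hs s ^ 2 = 1 := by
  unfold hs
  split_ifs <;> norm_num

theorem sqrt2 : (((√2 : ℝ) : ℂ)) ^ 2 = 2 := by
  rw [← Complex.ofReal_pow, Real.sq_sqrt (by norm_num)]
  norm_num

theorem sqrt2_ne : (((√2 : ℝ) : ℂ)) ≠ 0 := by
  intro h
  have := sqrt2
  rw [h] at this
  norm_num at this

theorem cj_hv (i : Md) (j : Fin 3) : cj (hv i) j =
    (-(Complex.I * (av i.1.1 j : ℂ)) - (hs i.2 : ℂ) * (bv i.1.1 j : ℂ)) / ((√2 : ℝ) : ℂ) := by
  unfold cj hv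
  rw [map_div₀, map_sub, map_mul, map_mul, Complex.conj_I, Complex.conj_ofReal,
    Complex.conj_ofReal, Complex.conj_ofReal, Complex.conj_ofReal]
  ring

theorem kc_eq {k : Z3} (hk : k ≠ 0) (j : Fin 3) : kc k j = (len k : ℂ) * (nv k j : ℂ) := by
  unfold kc nv
  have := (len_pos hk).ne'
  push_cast
  have h2 : (len k : ℂ) ≠ 0 := by exact_mod_cast this
  field_simp

theorem t_FRAME : S_FRAME := by
  refine ⟨hv, ?_, ?_, ?_, ?_, ?_, ?_⟩
  · -- unit
    intro i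
    obtain ⟨⟨k, hk⟩, s⟩ := i
    have N : ((nv k 0 : ℂ)) ^ 2 + (nv k 1 : ℂ) ^ 2 + (nv k 2 : ℂ) ^ 2 = 1 := by
      exact_mod_cast nv_unit hk
    have A : ((av k 0 : ℂ)) ^ 2 + (av k 1 : ℂ) ^ 2 + (av k 2 : ℂ) ^ 2 = 1 := by
      exact_mod_cast av_unit hk
    have O : (nv k 0 : ℂ) * (av k 0 : ℂ) + (nv k 1 : ℂ) * (av k 1 : ℂ) +
        (nv k 2 : ℂ) * (av k 2 : ℂ) = 0 := by exact_mod_cast nv_av k
    have S : ((hs s : ℝ) : ℂ) ^ 2 = 1 := by exact_mod_cast hs_sq s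
    rw [dt_eq, cj_hv, cj_hv, cj_hv]
    unfold hv
    simp only [bv0, bv1, bv2]
    push_cast
    generalize (nv k 0 : ℂ) = n0 at *
    generalize (nv k 1 : ℂ) = n1 at *
    generalize (nv k 2 : ℂ) = n2 at *
    generalize (av k 0 : ℂ) = a0 at *
    generalize (av k 1 : ℂ) = a1 at *
    generalize (av k 2 : ℂ) = a2 at *
    generalize ((hs s : ℝ) : ℂ) = σ at *
    have h2 := sqrt2
    have h3 := sqrt2_ne
    generalize (((√2 : ℝ) : ℂ)) = r at *
    have hI := Complex.I_sq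
    have B : (n1 * a2 - n2 * a1) ^ 2 + (n2 * a0 - n0 * a2) ^ 2 + (n0 * a1 - n1 * a0) ^ 2 = 1 := by
      linear_combination (a0 ^ 2 + a1 ^ 2 + a2 ^ 2) * N + A -
        (n0 * a0 + n1 * a1 + n2 * a2) * O
    field_simp
    linear_combination -(a0 ^ 2 + a1 ^ 2 + a2 ^ 2) * hI + A + σ ^ 2 * B + S - h2
  · -- orth
    intro k'
    obtain ⟨k, hk⟩ := k'
    have N : ((nv k 0 : ℂ)) ^ 2 + (nv k 1 : ℂ) ^ 2 + (nv k 2 : ℂ) ^ 2 = 1 := by
      exact_mod_cast nv_unit hk
    have A : ((av k 0 : ℂ)) ^ 2 + (av k 1 : ℂ) ^ 2 + (av k 2 : ℂ) ^ 2 = 1 := by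
      exact_mod_cast av_unit hk
    have O : (nv k 0 : ℂ) * (av k 0 : ℂ) + (nv k 1 : ℂ) * (av k 1 : ℂ) +
        (nv k 2 : ℂ) * (av k 2 : ℂ) = 0 := by exact_mod_cast nv_av k
    rw [dt_eq, cj_hv, cj_hv, cj_hv]
    unfold hv
    have s1 : hs true = 1 := by unfold hs; simp
    have s2 : hs false = -1 := by unfold hs; simp
    simp only [bv0, bv1, bv2, s1, s2]
    push_cast
    generalize (nv k 0 : ℂ) = n0 at *
    generalize (nv k 1 : ℂ) = n1 at *
    generalize (nv k 2 : ℂ) = n2 at *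
    generalize (av k 0 : ℂ) = a0 at *
    generalize (av k 1 : ℂ) = a1 at *
    generalize (av k 2 : ℂ) = a2 at *
    have h2 := sqrt2
    have h3 := sqrt2_ne
    generalize (((√2 : ℝ) : ℂ)) = r at *
    have hI := Complex.I_sq
    have B : (n1 * a2 - n2 * a1) ^ 2 + (n2 * a0 - n0 * a2) ^ 2 + (n0 * a1 - n1 * a0) ^ 2 = 1 := by
      linear_combination (a0 ^ 2 + a1 ^ 2 + a2 ^ 2) * N + A -
        (n0 * a0 + n1 * a1 + n2 * a2) * O
    field_simp
    linear_combination -(a0 ^ 2 + a1 ^ 2 + a2 ^ 2) * hI + A - B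
  · -- perp
    intro i
    obtain ⟨⟨k, hk⟩, s⟩ := i
    have O : (nv k 0 : ℂ) * (av k 0 : ℂ) + (nv k 1 : ℂ) * (av k 1 : ℂ) +
        (nv k 2 : ℂ) * (av k 2 : ℂ) = 0 := by exact_mod_cast nv_av k
    rw [dt_eq, kc_eq hk, kc_eq hk, kc_eq hk]
    unfold hv
    simp only [bv0, bv1, bv2]
    push_cast
    linear_combination (len k : ℂ) * Complex.I / ((√2 : ℝ) : ℂ) * O
  · -- eig
    intro i j
    obtain ⟨⟨k, hk⟩, s⟩ := i
    have N : ((nv k 0 : ℂ)) ^ 2 + (nv k 1 : ℂ) ^ 2 + (nv k 2 : ℂ) ^ 2 = 1 := by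
      exact_mod_cast nv_unit hk
    have O : (nv k 0 : ℂ) * (av k 0 : ℂ) + (nv k 1 : ℂ) * (av k 1 : ℂ) +
        (nv k 2 : ℂ) * (av k 2 : ℂ) = 0 := by exact_mod_cast nv_av k
    have S : ((hs s : ℝ) : ℂ) ^ 2 = 1 := by exact_mod_cast hs_sq s
    have hI := Complex.I_sq
    have h3 := sqrt2_ne
    have k0 := kc_eq hk 0
    have k1 := kc_eq hk 1
    have k2 := kc_eq hk 2
    fin_cases j
    · change Complex.I * (kc k 1 * hv (⟨k, hk⟩, s) 2 - kc k 2 * hv (⟨k, hk⟩, s) 1) =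
        ((hs s * len k : ℝ) : ℂ) * hv (⟨k, hk⟩, s) 0
      rw [k1, k2]
      unfold hv
      simp only [bv0, bv1, bv2]
      push_cast
      generalize (nv k 0 : ℂ) = n0 at *
      generalize (nv k 1 : ℂ) = n1 at *
      generalize (nv k 2 : ℂ) = n2 at *
      generalize (av k 0 : ℂ) = a0 at *
      generalize (av k 1 : ℂ) = a1 at *
      generalize (av k 2 : ℂ) = a2 at *
      generalize ((hs s : ℝ) : ℂ) = σ at *
      generalize (((√2 : ℝ) : ℂ)) = r at *
      field_simp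
      linear_combination (len k : ℂ) * ((n1 * a2 - n2 * a1) * hI + (n1 * a2 - n2 * a1) * S +
        Complex.I * σ * a0 * N - Complex.I * σ * n0 * O)
    · change Complex.I * (kc k 2 * hv (⟨k, hk⟩, s) 0 - kc k 0 * hv (⟨k, hk⟩, s) 2) =
        ((hs s * len k : ℝ) : ℂ) * hv (⟨k, hk⟩, s) 1
      rw [k0, k2]
      unfold hv
      simp only [bv0, bv1, bv2]
      push_cast
      generalize (nv k 0 : ℂ) = n0 at *
      generalize (nv k 1 : ℂ) = n1 at *
      generalize (nv k 2 : ℂ) = n2 at *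
      generalize (av k 0 : ℂ) = a0 at *
      generalize (av k 1 : ℂ) = a1 at *
      generalize (av k 2 : ℂ) = a2 at *
      generalize ((hs s : ℝ) : ℂ) = σ at *
      generalize (((√2 : ℝ) : ℂ)) = r at *
      field_simp
      linear_combination (len k : ℂ) * ((n2 * a0 - n0 * a2) * hI + (n2 * a0 - n0 * a2) * S +
        Complex.I * σ * a1 * N - Complex.I * σ * n1 * O)
    · change Complex.I * (kc k 0 * hv (⟨k, hk⟩, s) 1 - kc k 1 * hv (⟨k, hk⟩, s) 0) =
        ((hs s * len k : ℝ) : ℂ) * hv (⟨k, hk⟩, s) 2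
      rw [k0, k1]
      unfold hv
      simp only [bv0, bv1, bv2]
      push_cast
      generalize (nv k 0 : ℂ) = n0 at *
      generalize (nv k 1 : ℂ) = n1 at *
      generalize (nv k 2 : ℂ) = n2 at *
      generalize (av k 0 : ℂ) = a0 at *
      generalize (av k 1 : ℂ) = a1 at *
      generalize (av k 2 : ℂ) = a2 at *
      generalize ((hs s : ℝ) : ℂ) = σ at *
      generalize (((√2 : ℝ) : ℂ)) = r at *
      field_simp
      linear_combination (len k : ℂ) * ((n0 * a1 - n1 * a0) * hI + (n0 * a1 - n1 * a0) * S +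
        Complex.I * σ * a2 * N - Complex.I * σ * n2 * O)
  · -- bar
    intro i
    funext j
    rw [cj_hv]
    unfold hv br
    simp only [av_neg, bv_neg]
    push_cast
    ring
  · -- compl
    intro k' v hv0 j
    obtain ⟨k, hk⟩ := k'
    have N : ((nv k 0 : ℂ)) ^ 2 + (nv k 1 : ℂ) ^ 2 + (nv k 2 : ℂ) ^ 2 = 1 := by
      exact_mod_cast nv_unit hk
    have A : ((av k 0 : ℂ)) ^ 2 + (av k 1 : ℂ) ^ 2 + (av k 2 : ℂ) ^ 2 = 1 := by
      exact_mod_cast av_unit hk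
    have O : (nv k 0 : ℂ) * (av k 0 : ℂ) + (nv k 1 : ℂ) * (av k 1 : ℂ) +
        (nv k 2 : ℂ) * (av k 2 : ℂ) = 0 := by exact_mod_cast nv_av k
    have V : (nv k 0 : ℂ) * v 0 + (nv k 1 : ℂ) * v 1 + (nv k 2 : ℂ) * v 2 = 0 := by
      rw [dt_eq, kc_eq hk, kc_eq hk, kc_eq hk] at hv0
      have hl : (len k : ℂ) ≠ 0 := by exact_mod_cast (len_pos hk).ne'
      apply mul_left_cancel₀ hl
      linear_combination hv0
    have hI := Complex.I_sq
    have h2 := sqrt2
    have h3 := sqrt2_ne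
    have s1 : hs true = 1 := by unfold hs; simp
    have s2 : hs false = -1 := by unfold hs; simp
    rw [dt_eq, dt_eq, cj_hv, cj_hv, cj_hv, cj_hv, cj_hv, cj_hv]
    unfold hv
    simp only [s1, s2]
    -- reduce to the real frame
    have red : ∀ r a0 a1 a2 b0 b1 b2 v0 v1 v2 a b : ℂ, r ^ 2 = 2 → r ≠ 0 →
        (v0 * ((-(Complex.I * a0) - 1 * b0) / r) + v1 * ((-(Complex.I * a1) - 1 * b1) / r) +
          v2 * ((-(Complex.I * a2) - 1 * b2) / r)) * ((Complex.I * a - 1 * b) / r) +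
        (v0 * ((-(Complex.I * a0) - -1 * b0) / r) + v1 * ((-(Complex.I * a1) - -1 * b1) / r) +
          v2 * ((-(Complex.I * a2) - -1 * b2) / r)) * ((Complex.I * a - -1 * b) / r) =
        (v0 * a0 + v1 * a1 + v2 * a2) * a + (v0 * b0 + v1 * b1 + v2 * b2) * b := by
      intro r a0 a1 a2 b0 b1 b2 v0 v1 v2 a b hr hr0
      field_simp
      rw [hr]
      linear_combination (-2 * (v0 * a0 + v1 * a1 + v2 * a2) * a) * hI
    push_cast
    rw [red _ _ _ _ _ _ _ _ _ _ _ _ h2 h3]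
    simp only [bv0, bv1, bv2]
    fin_cases j
    · change v 0 = _ * (av k 0 : ℂ) + _ * ((bv k 0 : ℝ) : ℂ)
      rw [bv0]
      push_cast
      generalize (nv k 0 : ℂ) = n0 at *
      generalize (nv k 1 : ℂ) = n1 at *
      generalize (nv k 2 : ℂ) = n2 at *
      generalize (av k 0 : ℂ) = a0 at *
      generalize (av k 1 : ℂ) = a1 at *
      generalize (av k 2 : ℂ) = a2 at *
      generalize v 0 = v0 at *
      generalize v 1 = v1 at *
      generalize v 2 = v2 at *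
      linear_combination n0 * V -
        v0 * ((a1 ^ 2 + a2 ^ 2) * N + (1 - n0 ^ 2) * A - (n1 * a1 + n2 * a2 - n0 * a0) * O) -
        v1 * (-(n0 * n1) * A - a0 * a1 * N + (n1 * a0 + n0 * a1) * O) -
        v2 * (-(n0 * n2) * A - a0 * a2 * N + (n2 * a0 + n0 * a2) * O)
    · change v 1 = _ * (av k 1 : ℂ) + _ * ((bv k 1 : ℝ) : ℂ)
      rw [bv1]
      push_cast
      generalize (nv k 0 : ℂ) = n0 at *
      generalize (nv k 1 : ℂ) = n1 at *
      generalize (nv k 2 : ℂ) = n2 at *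
      generalize (av k 0 : ℂ) = a0 at *
      generalize (av k 1 : ℂ) = a1 at *
      generalize (av k 2 : ℂ) = a2 at *
      generalize v 0 = v0 at *
      generalize v 1 = v1 at *
      generalize v 2 = v2 at *
      linear_combination n1 * V -
        v1 * ((a0 ^ 2 + a2 ^ 2) * N + (1 - n1 ^ 2) * A - (n0 * a0 + n2 * a2 - n1 * a1) * O) -
        v0 * (-(n0 * n1) * A - a0 * a1 * N + (n1 * a0 + n0 * a1) * O) -
        v2 * (-(n1 * n2) * A - a1 * a2 * N + (n2 * a1 + n1 * a2) * O)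
    · change v 2 = _ * (av k 2 : ℂ) + _ * ((bv k 2 : ℝ) : ℂ)
      rw [bv2]
      push_cast
      generalize (nv k 0 : ℂ) = n0 at *
      generalize (nv k 1 : ℂ) = n1 at *
      generalize (nv k 2 : ℂ) = n2 at *
      generalize (av k 0 : ℂ) = a0 at *
      generalize (av k 1 : ℂ) = a1 at *
      generalize (av k 2 : ℂ) = a2 at *
      generalize v 0 = v0 at *
      generalize v 1 = v1 at *
      generalize v 2 = v2 at *
      linear_combination n2 * V -
        v2 * ((a0 ^ 2 + a1 ^ 2) * N + (1 - n2 ^ 2) * A - (n0 * a0 + n1 * a1 - n2 * a2) * O) -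
        v0 * (-(n0 * n2) * A - a0 * a2 * N + (n2 * a0 + n0 * a2) * O) -
        v1 * (-(n1 * n2) * A - a1 * a2 * N + (n2 * a1 + n1 * a2) * O)

end Pool.Agent.Y812.EM.Frame
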