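import Pool.Agent.Y6.M.Stm

/-!
# EM-VEC1: a vector identity for helical vectors
-/

set_option autoImplicit false

open scoped ComplexConjugate

namespace Pool.Agent.Y812.EM.Vec1

open Pool.Agent.Y6.M

theorem dt_eq (a b : C3) : dt a b = a 0 * b 0 + a 1 * b 1 + a 2 * b 2 := by
  unfold dt
  rw [Fin.sum_univ_three]

theorem cr0 (a b : C3) : cr a b 0 = a 1 * b 2 - a 2 * b 1 := rfl
theorem cr1 (a b : C3) : cr a b 1 = a 2 * b 0 - a 0 * b 2 := rfl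
theorem cr2 (a b : C3) : cr a b 2 = a 0 * b 1 - a 1 * b 0 := rfl

theorem kc_add (k l : Z3) (j : Fin 3) : kc (k + l) j = kc k j + kc l j := by
  unfold kc
  push_cast [Pi.add_apply]
  rfl

theorem conj_kc (k : Z3) (j : Fin 3) : conj (kc k j) = kc k j := by
  unfold kc
  exact map_intCast (starRingEnd ℂ) _

theorem t_VEC1 : S_VEC1 := by
  intro h hF i a b hab
  have e3 : dt (kc i.1.1) (cj (h i)) = 0 := by
    have h1 := congrArg (starRingEnd ℂ) (hF.perp i)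
    rw [map_zero, dt_eq, map_add, map_add, map_mul, map_mul, map_mul, conj_kc, conj_kc,
      conj_kc] at h1
    rw [dt_eq]
    exact h1
  obtain ⟨W, hW⟩ : ∃ W : C3, W = cj (h i) := ⟨_, rfl⟩
  have ea0 := hF.eig a 0
  have ea1 := hF.eig a 1
  have ea2 := hF.eig a 2
  have eb0 := hF.eig b 0
  have eb1 := hF.eig b 1
  have eb2 := hF.eig b 2
  have hba : b.1.1 + a.1.1 = i.1.1 := by rw [add_comm]; exact hab
  unfold cK
  rw [if_pos hab, if_pos hba]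
  rw [← hab, dt_eq, kc_add, kc_add, kc_add] at e3
  rw [← hW] at e3 ⊢
  rw [cr0] at ea0 eb0
  rw [cr1] at ea1 eb1
  rw [cr2] at ea2 eb2
  rw [dt_eq, dt_eq, dt_eq, dt_eq, dt_eq, cr0, cr1, cr2]
  push_cast at ea0 ea1 ea2 eb0 eb1 eb2 ⊢
  obtain ⟨A, hA⟩ : ∃ A : C3, A = h a := ⟨_, rfl⟩
  obtain ⟨B, hB⟩ : ∃ B : C3, B = h b := ⟨_, rfl⟩
  obtain ⟨p, hp⟩ : ∃ p : C3, p = kc a.1.1 := ⟨_, rfl⟩
  obtain ⟨q, hq⟩ : ∃ q : C3, q = kc b.1.1 := ⟨_, rfl⟩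
  rw [← hA, ← hp] at ea0 ea1 ea2
  rw [← hB, ← hq] at eb0 eb1 eb2
  rw [← hp, ← hq] at e3
  rw [← hA, ← hB, ← hp, ← hq]
  linear_combination
    (2 * (Real.pi : ℂ)) * ((A 2 * W 1 - A 1 * W 2) * eb0 + (A 0 * W 2 - A 2 * W 0) * eb1 +
      (A 1 * W 0 - A 0 * W 1) * eb2) -
    (2 * (Real.pi : ℂ)) * ((B 1 * W 2 - B 2 * W 1) * ea0 + (B 2 * W 0 - B 0 * W 2) * ea1 +
      (B 0 * W 1 - B 1 * W 0) * ea2) -
    (2 * (Real.pi : ℂ) * Complex.I) * (A 0 * B 0 + A 1 * B 1 + A 2 * B 2) * e3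

end Pool.Agent.Y812.EM.Vec1
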